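import Pool.Agent.T6.H48.AM.Main

/-!
# The `C^r` closing lemma for extensions of hyperbolic systems by arbitrary flows and `ℝᵏ`-actions

`V n = ℝⁿ`, `DiffM n N r = Diff^r(N)`, `strongTop n N r` is its strong (Whitney) `C^r` topology (the
usual one, `N` being compact), `IsPer G z`: `z` is periodic for `G` (`Pool/Agent/H718R2/G0.lean`).
`NonWand`, `PerShadow` (periodic shadowing property), `ChainMix` (chain mixing):
`Pool/Agent/W564/SC/Defs.lean`; for example mixing hyperbolic sets and Anosov diffeomorphisms.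
From `Pool/Agent/T6/H48/AM/Defs.lean`:
* `IsAction k n N R`: `R` is a smooth action of `ℝᵏ` on `N`;
* `skew h g φ τ (b, y) = (h b, φ_{τ(b)} (g y))`;
* `IsSkew k n F R h g φ τ Θ`: on the set `Θ(B × Y)`, invariant under `F` and `R`, `F` is this skew
  product and `R` is `(b, y) ↦ (b, φ_s y)`, with `τ` continuous and `g φ_s = φ_s g`;
* `FibreRec h g φ τ y`: `y` is recurrent in the fibre, up to arbitrarily small constant changes of `τ`.

The theorems `of_nonWand`, `of_flow`, `of_zero` below give sufficient conditions for `FibreRec`.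
-/

set_option autoImplicit false

open scoped Manifold ContDiff Topology

namespace Pool.Agent.Results.MP_1e8d1a_an.ActionExtensions

open Pool.Agent.H718R2.G Pool.Agent.W564.SC Pool.Agent.T6.H48.AM

/-- Let `N` be a closed manifold, `1 ≤ r ≤ ∞`, `F ∈ Diff^r(N)`, and let `R` be a smooth action of `ℝᵏ`
on `N`. Let `Θ` be an embedding of a product `B × Y` of compact metric spaces onto an invariant subset of
`N` on which `F` is an extension `(b, y) ↦ (h b, φ_{τ(b)} (g y))` of a chain mixing homeomorphism `h` of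
`B` (not a point) with the periodic shadowing property, where `φ` is the restriction of `R` to the
fibre `Y`, `τ : B → ℝᵏ` is an ARBITRARY continuous function, and `g` is an ARBITRARY homeomorphism of `Y`
which commutes with `φ` (nothing is assumed about `φ`). Then for every `y` which is recurrent in the
fibre, and for EVERY `b ∈ B`, the conclusion of the `C^r` closing lemma holds for `F` at `Θ (b, y)`. -/
theorem result {k n : ℕ} {N : Type*} [TopologicalSpace N] [T2Space N] [CompactSpace N]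
    [ChartedSpace (V n) N] [IsManifold (𝓡 n) ∞ N] (r : ℕ∞) (hr : 1 ≤ r) (F : DiffM n N r)
    (R : V k → N → N) (hR : IsAction k n N R)
    {B Y : Type*} [MetricSpace B] [CompactSpace B] [Nontrivial B] [MetricSpace Y] [CompactSpace Y]
    (h : B ≃ₜ B) (hsh : PerShadow h) (hmix : ChainMix h) (g : Y ≃ₜ Y)
    (φ : V k → Y → Y) (τ : B → V k) (Θ : B × Y → N) (hF : IsSkew k n F R h g φ τ Θ)
    (b : B) (y : Y) (hy : FibreRec h g φ τ y) :
    ∀ U : Set (DiffM n N r), IsOpen[strongTop n N r] U → F ∈ U → ∃ G ∈ U, IsPer G (Θ (b, y)) :=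
  main r hr F hR h hsh hmix g hF b y hy

/-- Special case: if ONE point `(b', y)` of `B × {y}` is nonwandering (for example recurrent) for the
skew product, then `F` can be closed at ALL points of `B × {y}`. -/
theorem of_nonWand {k n : ℕ} {N : Type*} [TopologicalSpace N] [T2Space N] [CompactSpace N]
    [ChartedSpace (V n) N] [IsManifold (𝓡 n) ∞ N] (r : ℕ∞) (hr : 1 ≤ r) (F : DiffM n N r)
    (R : V k → N → N) (hR : IsAction k n N R)
    {B Y : Type*} [MetricSpace B] [CompactSpace B] [Nontrivial B] [MetricSpace Y] [CompactSpace Y]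
    (h : B ≃ₜ B) (hsh : PerShadow h) (hmix : ChainMix h) (g : Y ≃ₜ Y)
    (φ : V k → Y → Y) (τ : B → V k) (Θ : B × Y → N) (hF : IsSkew k n F R h g φ τ Θ)
    (b b' : B) (y : Y) (hy : NonWand (skew h g φ τ) (b', y)) :
    ∀ U : Set (DiffM n N r), IsOpen[strongTop n N r] U → F ∈ U → ∃ G ∈ U, IsPer G (Θ (b, y)) :=
  main r hr F hR h hsh hmix g hF b y (fibreRec_of_nonWand
    (skew_cont (hF.cont_act hR b) h.continuous g.continuous hF.cont) hy)

/-- Special case: `F (b, y) = (h b, φ_{τ(b)} y)` with an arbitrary flow `φ`. The closing lemma holds at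
`(b, y)` for all nonwandering points `y` of the flow, and all `b`. -/
theorem of_flow {n : ℕ} {N : Type*} [TopologicalSpace N] [T2Space N] [CompactSpace N]
    [ChartedSpace (V n) N] [IsManifold (𝓡 n) ∞ N] (r : ℕ∞) (hr : 1 ≤ r) (F : DiffM n N r)
    (R : V 1 → N → N) (hR : IsAction 1 n N R)
    {B Y : Type*} [MetricSpace B] [CompactSpace B] [Nontrivial B] [MetricSpace Y] [CompactSpace Y]
    (h : B ≃ₜ B) (hsh : PerShadow h) (hmix : ChainMix h)
    (φ : V 1 → Y → Y) (τ : B → V 1) (Θ : B × Y → N)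
    (hF : IsSkew 1 n F R h (Homeomorph.refl Y) φ τ Θ) (b : B) (y : Y)
    (hy : ∀ W ∈ 𝓝 y, ∀ T : ℝ, ∃ t : V 1, T ≤ t 0 ∧ ∃ y₁ ∈ W, φ t y₁ ∈ W) :
    ∀ U : Set (DiffM n N r), IsOpen[strongTop n N r] U → F ∈ U → ∃ G ∈ U, IsPer G (Θ (b, y)) :=
  main r hr F hR h hsh hmix (Homeomorph.refl Y) hF b y
    (fibreRec_of_flow h hsh hmix (hF.zero hR b) (hF.add hR b) hy)

/-- Special case: `F (b, y) = (h b, φ_{τ(b)} y)` with an arbitrary action `φ` of `ℝᵏ`, where the sum of
`τ` over some periodic orbit of `h` vanishes. The closing lemma holds at ALL points of `B × Y`. -/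
theorem of_zero {k n : ℕ} {N : Type*} [TopologicalSpace N] [T2Space N] [CompactSpace N]
    [ChartedSpace (V n) N] [IsManifold (𝓡 n) ∞ N] (r : ℕ∞) (hr : 1 ≤ r) (F : DiffM n N r)
    (R : V k → N → N) (hR : IsAction k n N R)
    {B Y : Type*} [MetricSpace B] [CompactSpace B] [Nontrivial B] [MetricSpace Y] [CompactSpace Y]
    (h : B ≃ₜ B) (hsh : PerShadow h) (hmix : ChainMix h)
    (φ : V k → Y → Y) (τ : B → V k) (Θ : B × Y → N)
    (hF : IsSkew k n F R h (Homeomorph.refl Y) φ τ Θ) (b₀ : B) (a : ℕ) (ha : 1 ≤ a)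
    (hb₀ : h^[a] b₀ = b₀) (hτ : ∑ i ∈ Finset.range a, τ (h^[i] b₀) = 0) (b : B) (y : Y) :
    ∀ U : Set (DiffM n N r), IsOpen[strongTop n N r] U → F ∈ U → ∃ G ∈ U, IsPer G (Θ (b, y)) :=
  main r hr F hR h hsh hmix (Homeomorph.refl Y) hF b y
    (fibreRec_of_zero (hF.zero hR b) (hF.add hR b) ha hb₀ hτ y)

end Pool.Agent.Results.MP_1e8d1a_an.ActionExtensions
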