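import Pool.Agent.T6.H48.FX.Main

/-!
# The `C^r` closing lemma for extensions of arbitrary diffeomorphisms by hyperbolic flows

`V n = ℝⁿ`, `DiffM n N r = Diff^r(N)`, `strongTop n N r` is its strong (Whitney) `C^r` topology (the
usual one, `N` being compact), `IsPer G z`: `z` is periodic for `G` (`Pool/Agent/H718R2/G0.lean`);
`NonWand f x`: `x` is a nonwandering point of `f` (`Pool/Agent/W564/SC/Defs.lean`); `IsFlow n N ψ`: `ψ` is
a smooth flow on `N` (`Pool/Agent/TH290/CL/Flow.lean`).
From `Pool/Agent/T6/H48/FX/Defs.lean`: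
* `FlowShadow φ`, `FlowTrans φ`: the flow `φ` has the periodic shadowing property, is chain transitive
  (for example transitive Anosov flows, flows on transitive hyperbolic sets);
* `AvgNonneg f τ`: the averages of `τ` along the orbits of `f` are nonnegative (`∫ τ dμ ≥ 0` for all
  `f`-invariant probability measures `μ`); for example `τ ≥ 0`;
* `IsFlowExt F ψ f φ τ Θ`: on the set `Θ(X × Y)`, invariant under `F` and the flow `ψ`, `F` is
  `(x, y) ↦ (f x, φ_{τ(x)} y)` and `ψ_s` is `(x, y) ↦ (x, φ_s y)`; `τ` is continuous.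
-/

set_option autoImplicit false

open scoped Manifold ContDiff Topology

namespace Pool.Agent.Results.MP_1e8d1a_an.HyperbolicFlowFibres

open Pool.Agent.H718R2.G Pool.Agent.W564.SC Pool.Agent.TH290.CL Pool.Agent.T6.H48.FX

/-- Let `N` be a closed manifold, `1 ≤ r ≤ ∞`, `F ∈ Diff^r(N)`, and let `ψ` be a smooth flow on `N`. Let
`Θ` be an embedding of a product `X × Y` of compact metric spaces onto an invariant subset of `N` on
which `F` is an extension `(x, y) ↦ (f x, φ_{τ(x)} y)` of an ARBITRARY continuous map `f` of `X` by a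
chain transitive flow `φ` on `Y` (more than one orbit) with the periodic shadowing property, `φ` being
the restriction of `ψ` to the fibres and `τ : X → ℝ` continuous. Suppose that either the averages of
`τ` are nonnegative, or the averages of `-τ` are (for example `f` is uniquely ergodic, or `τ` is
constant, or a coboundary). Then for every nonwandering point `x` of `f` and every `y ∈ Y` the
conclusion of the `C^r` closing lemma holds for `F` at `Θ (x, y)`. -/
theorem result {n : ℕ} {N : Type*} [TopologicalSpace N] [T2Space N] [CompactSpace N]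
    [ChartedSpace (V n) N] [IsManifold (𝓡 n) ∞ N] (r : ℕ∞) (hr : 1 ≤ r) (F : DiffM n N r)
    (ψ : ℝ → N → N) (hψ : IsFlow n N ψ)
    {X Y : Type*} [MetricSpace X] [CompactSpace X] [MetricSpace Y] [CompactSpace Y]
    (f : X → X) (hf : Continuous f) (φ : ℝ → Y → Y) (hsh : FlowShadow φ) (htr : FlowTrans φ)
    (hne : ∀ p : Y, ∃ y, ∀ t, φ t p ≠ y)
    (τ : X → ℝ) (hτ : AvgNonneg f τ ∨ AvgNonneg f (fun x => -τ x)) (Θ : X × Y → N)
    (hF : IsFlowExt F ψ f φ τ Θ) (x : X) (hx : NonWand f x) (y : Y) :
    ∀ U : Set (DiffM n N r), IsOpen[strongTop n N r] U → F ∈ U → ∃ G ∈ U, IsPer G (Θ (x, y)) :=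
  main' r hr F hψ f hf hsh htr hne hτ hF x hx y

/-- Special case: products `f × φ_a` of an arbitrary map `f` with the time-`a`-map of a hyperbolic
flow, for any `a ∈ ℝ`. -/
theorem product {n : ℕ} {N : Type*} [TopologicalSpace N] [T2Space N] [CompactSpace N]
    [ChartedSpace (V n) N] [IsManifold (𝓡 n) ∞ N] (r : ℕ∞) (hr : 1 ≤ r) (F : DiffM n N r)
    (ψ : ℝ → N → N) (hψ : IsFlow n N ψ)
    {X Y : Type*} [MetricSpace X] [CompactSpace X] [MetricSpace Y] [CompactSpace Y]
    (f : X → X) (hf : Continuous f) (φ : ℝ → Y → Y) (hsh : FlowShadow φ) (htr : FlowTrans φ)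
    (hne : ∀ p : Y, ∃ y, ∀ t, φ t p ≠ y) (a : ℝ) (Θ : X × Y → N)
    (hF : IsFlowExt F ψ f φ (fun _ => a) Θ) (x : X) (hx : NonWand f x) (y : Y) :
    ∀ U : Set (DiffM n N r), IsOpen[strongTop n N r] U → F ∈ U → ∃ G ∈ U, IsPer G (Θ (x, y)) := by
  refine main' r hr F hψ f hf hsh htr hne ?_ hF x hx y
  rcases le_total 0 a with h | h
  · exact Or.inl (avgNonneg_of_nonneg fun _ => h)
  · exact Or.inr (avgNonneg_of_nonneg fun _ => by linarith)

end Pool.Agent.Results.MP_1e8d1a_an.HyperbolicFlowFibres
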