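import Pool.Agent.T6.H27.CL.Main

/-!
# The `C^r` closing lemma at limits of periodic homogeneous submanifolds of linear Lie groups

`V n = ℝⁿ`, `DiffM n N r = Diff^r(N)`, `strongTop n N r` is its strong (Whitney) `C^r` topology (the
usual one, `N` being compact), `IsPer G z`: `z` is periodic for `G` (`Pool/Agent/H718R2/G0.lean`);
`ClosableAt n N r F z`: every neighbourhood of `F` in `Diff^r(N)` contains some `G` for which `z` is
periodic, `IsTorusAct e n N R`: `R` is a smooth action of `ℝᵉ/ℤᵉ` (`Pool/Agent/TH382/QC/Defs.lean`).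

A linear Lie group is a closed subgroup `G` of the group of units `Aˣ` of a finite dimensional real
Banach algebra `A` (for example of `GL(d, ℝ)`). Definitions for the statement:
* `eu X = exp X`, `Ad g X = g X g⁻¹`, `lieSet G = {X | exp(tX) ∈ G for all real t}` is the Lie algebra of
  `G` (`Pool/Agent/T6/H27/CL/Lie.lean`), `lieA G hG` is the same set as a Lie subalgebra of `A` with the
  bracket `X Y - Y X` (`CL/LAlg.lean`), `Bdd G X`: the orbit of `X` under `Ad(G)` is bounded
  (`CL/Bdd.lean`);
* `IsLattice Γ G`: `Γ` is a discrete cocompact subgroup of `G`; `Irreducible Γ G`: `N Γ` is dense in `G`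
  for every closed normal subgroup `N` of `G` whose Lie algebra contains an `X` with unbounded orbit (for
  semisimple `G`: for every noncompact closed normal subgroup; true for irreducible lattices)
  (`CL/Tame.lean`);
* `Split G h`: `Ad(h)` has on the Lie algebra of `G` no eigenvalue of modulus one, except for possibly the
  semisimple eigenvalue `1`, stated as: `‖Y‖ ≤ C ‖Ad(h^n) Y - Y‖` for all `n ≥ 1` and all `Y` in the image
  of `Ad(h) - 1` (`CL/Tame.lean`);
* `Tame Γ G h` (`CL/Tame.lean`): the smallest class of triples which contains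
  (a) `G` connected and semisimple, `Γ` an irreducible discrete cocompact subgroup, `h ∈ G` ARBITRARY
  (compact factors are allowed; `G` is compact or has an unbounded orbit in its Lie algebra, which by
  Weyl's theorem always holds), (b) `G` any linear Lie group, `Γ` discrete and cocompact, `h` a limit of
  elements `h'` with `Split G h'`, and is closed under (c) products of commuting groups and (d) central
  extensions by connected abelian groups `Z` for which `Γ ∩ Z` is cocompact in `Z`;
* `IsGAction G n N O act`: smooth action of `G` on the open set `O ⊆ N`, `CptOrbit act y`: the orbit of `y`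
  is compact (`CL/Act.lean`);
* `IsLiePer n N F y` (`CL/Main.lean`): `y` lies on a periodic homogeneous submanifold: `G` acts smoothly on
  an open set containing `y`, `C = G y` is compact, `Γ` fixes `y` (so `C` is a quotient of `G / Γ`),
  `F^m(C) = C`, the sets `F^i(C)`, `0 < i < m`, do not meet `C`, and `F^m` is on `C` the translation by
  some `h` with `Tame Γ G h`, possibly composed with a map of finite order which commutes with the action.
  Nothing is required of `F` elsewhere.

The last three theorems are special cases: all translations, cocycle extensions over maps which can be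
closed (`Comm ρ f`: `f` commutes with the action `ρ`; `IsSkew ρ α F₀ F`: `F y = α(y) · F₀(y)` with `α`
invariant under the action and `Comm ρ F₀`; `EqClosable n N r ρ F₀ z`: `F₀` can be closed at `z` by maps
which commute with the action), and quasi-periodic cocycles, for example
`F (x, g Γ) = (x + β, α(x) g Γ)` on `𝕋ᵉ × G / Γ` for all smooth `α : 𝕋ᵉ → G`, at all points.
-/

set_option autoImplicit false

open scoped Manifold ContDiff Topology

namespace Pool.Agent.Results.MP_1e8d1a_an.LieHomogeneous

open Pool.Agent.H718R2.G Pool.Agent.TH382.QC Pool.Agent.T6.H27.CL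

/-- Let `N` be a closed manifold, `F ∈ Diff^r(N)` (`0 ≤ r ≤ ∞`) and `z ∈ N`. Suppose that arbitrarily
`C^r`-close to `F` there are diffeomorphisms `F'` (for example `F' = F`) for which `z` is a limit of
points lying on periodic homogeneous submanifolds on which the return map is a tame translation. Then the
conclusion of the `C^r` closing lemma holds for `F` at `z`. -/
theorem result {n : ℕ} {N : Type*} [TopologicalSpace N] [T2Space N] [CompactSpace N]
    [ChartedSpace (V n) N] [IsManifold (𝓡 n) ∞ N] (r : ℕ∞) (F : DiffM n N r) (z : N)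
    (h : ∀ U : Set (DiffM n N r), IsOpen[strongTop n N r] U → F ∈ U →
      ∃ F' ∈ U, z ∈ closure {y | IsLiePer n N F' y}) :
    ∀ U : Set (DiffM n N r), IsOpen[strongTop n N r] U → F ∈ U → ∃ G ∈ U, IsPer G z :=
  main F z h

/-- Special case: cocycle extensions `F y = α(y) · F₀(y)` of a map `F₀` which can be closed at `z` by
maps commuting with the action. -/
theorem cocycle_extension {A : Type} [NormedRing A] [NormedAlgebra ℝ A] [CompleteSpace A]
    [FiniteDimensional ℝ A] {G Γ : Subgroup Aˣ} (hG : IsClosed (G : Set Aˣ))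
    (ht : ∀ h ∈ G, Tame Γ G h) {n : ℕ} {N : Type*} [TopologicalSpace N] [T2Space N]
    [CompactSpace N] [ChartedSpace (V n) N] [IsManifold (𝓡 n) ∞ N] (r : ℕ∞) (ρ : G → N → N)
    (hρ : IsGAction G n N Set.univ ρ) (α : N → G) (F₀ F : DiffM n N r) (hF : IsSkew ρ α F₀ F)
    (z : N) (hz : CptOrbit ρ z) (hΓ : ∀ γ : G, (γ : Aˣ) ∈ Γ → ρ γ z = z)
    (hc : EqClosable n N r ρ F₀ z) : ClosableAt n N r F z :=
  extension hG hρ ht F₀ F hF z hz hΓ hc

/-- Special case: quasi-periodic cocycles, at all points. -/
theorem quasiperiodic_cocycle {A : Type} [NormedRing A] [NormedAlgebra ℝ A] [CompleteSpace A]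
    [FiniteDimensional ℝ A] {G Γ : Subgroup Aˣ} (hG : IsClosed (G : Set Aˣ))
    (ht : ∀ h ∈ G, Tame Γ G h) {e n : ℕ} {N : Type*} [TopologicalSpace N] [T2Space N]
    [CompactSpace N] [ChartedSpace (V n) N] [IsManifold (𝓡 n) ∞ N] (r : ℕ∞) (ρ : G → N → N)
    (hρ : IsGAction G n N Set.univ ρ) (R : V e → N → N) (hR : IsTorusAct e n N R)
    (hRρ : ∀ a, Comm ρ (R a)) (β : V e) (α : N → G) (F₀ F : DiffM n N r)
    (hF₀ : ∀ y, F₀ y = R β y) (hF : IsSkew ρ α F₀ F) (z : N) (hz : CptOrbit ρ z)
    (hΓ : ∀ γ : G, (γ : Aˣ) ∈ Γ → ρ γ z = z) : ClosableAt n N r F z :=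
  quasiperiodic hG hρ ht hR hRρ β F₀ F hF₀ hF z hz hΓ

/-- Special case: all translations of compact quotients of a connected semisimple linear Lie group by
an irreducible lattice. -/
theorem translation {A : Type} [NormedRing A] [NormedAlgebra ℝ A] [CompleteSpace A]
    [FiniteDimensional ℝ A] {G Γ : Subgroup Aˣ} (hG : IsClosed (G : Set Aˣ)) [ConnectedSpace G]
    [LieAlgebra.IsSemisimple ℝ (lieA G hG)]
    (hGc : IsCompact (G : Set Aˣ) ∨ ∃ X ∈ lieSet G, ¬ Bdd G X) (hΓ : IsLattice Γ G)
    (hirr : Irreducible Γ G) {n : ℕ} {N : Type*} [TopologicalSpace N] [T2Space N]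
    [CompactSpace N] [ChartedSpace (V n) N] [IsManifold (𝓡 n) ∞ N] (r : ℕ∞) (ρ : G → N → N)
    (hρ : IsGAction G n N Set.univ ρ) (g : G) (F : DiffM n N r) (hF : ∀ y, F y = ρ g y)
    (z : N) (hz : CptOrbit ρ z) (hΓz : ∀ γ : G, (γ : Aˣ) ∈ Γ → ρ γ z = z) :
    ClosableAt n N r F z :=
  extension hG hρ (fun h hh => Tame.semisimple hG inferInstance inferInstance hGc hΓ hirr hh)
    (Diffeomorph.refl (𝓡 n) N r) F (α := fun _ => g)
    ⟨fun _ _ => rfl, fun _ _ => rfl, hF⟩ z hz hΓz
    (fun _ _ hU => ⟨_, hU, fun _ _ => rfl, 1, le_rfl, rfl⟩)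

end Pool.Agent.Results.MP_1e8d1a_an.LieHomogeneous
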