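import Pool.Agent.T6.H48.CZ.Main

/-!
# The `C^r` closing lemma for symplectic diffeomorphisms of tori and for towers

Diffeomorphisms of the torus `𝕋^m` are given by their lifts `F` to `ℝ^m` (`IsDiffeoLift`). The
coordinates are distributed over levels by `lev`; `IsSympTower lev F` says that `F` is triangular
with respect to the levels and that, on each level, the fibre maps are either orientation preserving
circle homeomorphisms, or symplectic torus diffeomorphisms in the symplectic isotopy class of a
linear automorphism `A`, or arbitrary torus maps in the homotopy class of an automorphism without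
roots of unity among its eigenvalues.

With a single level this contains all the diffeomorphisms of `𝕋^{2n}` which preserve a constant
symplectic form and are isotopic, through such diffeomorphisms, to a linear automorphism.
-/

set_option autoImplicit false

namespace Pool.Agent.Results.MP_1e8d1a_an.SymplecticTowersClosing

open Pool.Agent.T6.H48.CZ
open Pool.Agent.H922R3.CL (Zn IsDiffeoLift IsPer)

/-- **Closing lemma.** Let `F` be a lift of a `C^r` diffeomorphism of `𝕋^m` which is a tower of
circle extensions and symplectic torus extensions, and let `z` be in the closure of every forward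
orbit of `F` (every `z` if `F` is minimal; every `z` of the minimal set if `F` has only one minimal
set). Then `z` becomes periodic after an arbitrarily `C^r`-small perturbation
`G = F (· - w) + u` of `F` by translations. -/
theorem result (m : ℕ) (r : ℕ∞) (lev : Fin m → ℕ) (F : (Fin m → ℝ) ≃ (Fin m → ℝ))
    (hF : IsDiffeoLift (Zn m) r F) (hT : IsSympTower lev F) (z : Fin m → ℝ)
    (hz : InAllOrbits F z) (k : ℕ) (hk : (k : ℕ∞) ≤ r) (ε : ℝ) (hε : 0 < ε) :
    ∃ (u w : Fin m → ℝ) (G : (Fin m → ℝ) ≃ (Fin m → ℝ)), ‖u‖ < ε ∧ ‖w‖ < ε ∧
      (∀ x, G x = F (x - w) + u) ∧ IsDiffeoLift (Zn m) r G ∧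
      (∀ j ≤ k, ∀ x, ‖iteratedFDeriv ℝ j (fun x => G x - F x) x‖ < ε) ∧
      IsPer (Zn m) G z :=
  main hF hT hz hk hε

end Pool.Agent.Results.MP_1e8d1a_an.SymplecticTowersClosing
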